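import Pool.Agent.H32.N6H.Targets
import Pool.Agent.H16.SAB.HES
import Pool.Agent.H32.N6W.Fin3

/-!
# Intersections of two quadrics in at least seven variables: the theorem for polynomials
-/

set_option autoImplicit false

open Polynomial NumberField IsDedekindDomain Matrix Pool.Agent.H32.QC Pool.Agent.H34.N6
  Pool.Agent.H32.N6

namespace Pool.Agent.H17.N6H

open Pool.Agent.H32.SAB (hes T_HES)
open Pool.Agent.H32.N6H

/-- common zeros of the polynomials and of the Hessian matrices -/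
theorem cz_of_poly (hHES : T_HES) {K : Type} [Field K] {m : ℕ} {f₁ f₂ : MvPolynomial (Fin m) K}
    (h1 : f₁.IsHomogeneous 2) (h2 : f₂.IsHomogeneous 2) {E : Type} [Field E] (φ : K →+* E)
    (h : ∃ x : Fin m → E, x ≠ 0 ∧ MvPolynomial.eval₂ φ x f₁ = 0 ∧
      MvPolynomial.eval₂ φ x f₂ = 0) : CZ ((hes f₁).map φ) ((hes f₂).map φ) := by
  obtain ⟨x, hx, ha, hb⟩ := h
  refine ⟨x, hx, ?_, ?_⟩
  · have h3 := ((hHES K m f₁ h1).2 E φ x).1
    rw [ha, mul_zero] at h3
    exact h3
  · have h3 := ((hHES K m f₂ h2).2 E φ x).1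
    rw [hb, mul_zero] at h3
    exact h3

theorem poly_of_cz (hHES : T_HES) {K : Type} [Field K] (hK : (2 : K) ≠ 0) {m : ℕ}
    {f₁ f₂ : MvPolynomial (Fin m) K} (h1 : f₁.IsHomogeneous 2) (h2 : f₂.IsHomogeneous 2)
    (h : CZ (hes f₁) (hes f₂)) :
    ∃ x : Fin m → K, x ≠ 0 ∧ MvPolynomial.eval x f₁ = 0 ∧ MvPolynomial.eval x f₂ = 0 := by
  obtain ⟨x, hx, ha, hb⟩ := h
  refine ⟨x, hx, ?_, ?_⟩
  · have h3 := ((hHES K m f₁ h1).2 K (RingHom.id K) x).1
    rw [map_id_eq, ha] at h3
    exact (mul_eq_zero.1 h3.symm).resolve_left hK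
  · have h3 := ((hHES K m f₂ h2).2 K (RingHom.id K) x).1
    rw [map_id_eq, hb] at h3
    exact (mul_eq_zero.1 h3.symm).resolve_left hK

theorem det_lead {k : Type} [Field k] {m : ℕ} (hm : m ≠ 0) {A1 A2 : Matrix (Fin m) (Fin m) k}
    (hn : (A1.map (C : k →+* k[X]) - (X : k[X]) • A2.map (C : k →+* k[X])).det.natDegree = m) :
    A2.det ≠ 0 := by
  intro h0
  have h1 : A1.map (C : k →+* k[X]) - (X : k[X]) • A2.map (C : k →+* k[X]) =
      (X : k[X]) • (-A2).map (C : k →+* k[X]) + A1.map (C : k →+* k[X]) := by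
    ext i j
    simp
    ring
  have h2 := coeff_det_X_add_C_card (-A2) A1
  rw [← h1, Matrix.det_neg, h0, mul_zero, Fintype.card_fin] at h2
  have h3 : (A1.map (C : k →+* k[X]) - (X : k[X]) • A2.map (C : k →+* k[X])).det = 0 := by
    rw [← Polynomial.leadingCoeff_eq_zero]
    unfold Polynomial.leadingCoeff
    rw [hn]
    exact h2
  rw [h3, Polynomial.natDegree_zero] at hn
  exact hm hn.symm

/-- smooth intersections have a separable discriminant -/
theorem sep_poly (hHES : T_HES) (K : Type) [Field K] [CharZero K] {m : ℕ} (hm : m ≠ 0)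
    (f₁ f₂ : MvPolynomial (Fin m) K) (h1 : f₁.IsHomogeneous 2) (h2 : f₂.IsHomogeneous 2)
    (hdeg : ((hes f₁).map (C : K →+* K[X]) -
      (X : K[X]) • (hes f₂).map (C : K →+* K[X])).det.natDegree = m)
    (hsm : ∀ x : Fin m → AlgebraicClosure K, x ≠ 0 →
      MvPolynomial.eval₂ (algebraMap K (AlgebraicClosure K)) x f₁ = 0 →
      MvPolynomial.eval₂ (algebraMap K (AlgebraicClosure K)) x f₂ = 0 →
      LinearIndependent (AlgebraicClosure K)
        ![fun i => MvPolynomial.eval₂ (algebraMap K (AlgebraicClosure K)) x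
            (MvPolynomial.pderiv i f₁),
          fun i => MvPolynomial.eval₂ (algebraMap K (AlgebraicClosure K)) x
            (MvPolynomial.pderiv i f₂)]) :
    ((hes f₁).map (C : K →+* K[X]) -
      (X : K[X]) • (hes f₂).map (C : K →+* K[X])).det.Separable := by
  have hA := hHES K m f₁ h1
  have hB := hHES K m f₂ h2
  have hdet : (hes f₂).det ≠ 0 := det_lead hm hdeg
  refine Pool.Agent.H32.N6V.disc_sep (algebraMap K (AlgebraicClosure K)) hA.1 hB.1 hdet
    fun x hx ha hb => ?_
  have h2E : (2 : AlgebraicClosure K) ≠ 0 := two_ne_zero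
  have ha' : MvPolynomial.eval₂ (algebraMap K (AlgebraicClosure K)) x f₁ = 0 := by
    have h3 := (hA.2 _ (algebraMap K (AlgebraicClosure K)) x).1
    rw [ha] at h3
    exact (mul_eq_zero.1 h3.symm).resolve_left h2E
  have hb' : MvPolynomial.eval₂ (algebraMap K (AlgebraicClosure K)) x f₂ = 0 := by
    have h3 := (hB.2 _ (algebraMap K (AlgebraicClosure K)) x).1
    rw [hb] at h3
    exact (mul_eq_zero.1 h3.symm).resolve_left h2E
  have h5 := hsm x hx ha' hb'
  have h6 : ((hes f₁).map (algebraMap K (AlgebraicClosure K))) *ᵥ x = fun i =>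
      MvPolynomial.eval₂ (algebraMap K (AlgebraicClosure K)) x (MvPolynomial.pderiv i f₁) :=
    funext fun i => (hA.2 _ (algebraMap K (AlgebraicClosure K)) x).2 i
  have h7 : ((hes f₂).map (algebraMap K (AlgebraicClosure K))) *ᵥ x = fun i =>
      MvPolynomial.eval₂ (algebraMap K (AlgebraicClosure K)) x (MvPolynomial.pderiv i f₂) :=
    funext fun i => (hB.2 _ (algebraMap K (AlgebraicClosure K)) x).2 i
  rw [h6, h7]
  exact h5

/-- the gradients are linearly independent at the common zeros -/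
def Smt {K : Type} [Field K] {m : ℕ} (f₁ f₂ : MvPolynomial (Fin m) K) : Prop :=
  ∀ x : Fin m → AlgebraicClosure K, x ≠ 0 →
    MvPolynomial.eval₂ (algebraMap K (AlgebraicClosure K)) x f₁ = 0 →
    MvPolynomial.eval₂ (algebraMap K (AlgebraicClosure K)) x f₂ = 0 →
    LinearIndependent (AlgebraicClosure K)
      ![fun i => MvPolynomial.eval₂ (algebraMap K (AlgebraicClosure K)) x
          (MvPolynomial.pderiv i f₁),
        fun i => MvPolynomial.eval₂ (algebraMap K (AlgebraicClosure K)) x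
          (MvPolynomial.pderiv i f₂)]

/-- a smooth intersection has a nonsingular member in its pencil -/
theorem exists_nonsing (hHES : T_HES) {K : Type} [Field K] [CharZero K] {m : ℕ}
    {f₁ f₂ : MvPolynomial (Fin m) K} (h1 : f₁.IsHomogeneous 2) (h2 : f₂.IsHomogeneous 2)
    (hsm : Smt f₁ f₂) : ∃ c : K, (hes f₁ - c • hes f₂).det ≠ 0 := by
  have hA := hHES K m f₁ h1
  have hB := hHES K m f₂ h2
  have hdet : ((hes f₁).map (C : K →+* K[X]) -
      (X : K[X]) • (hes f₂).map (C : K →+* K[X])).det ≠ 0 := by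
    intro h0
    have h3 := det_up (algebraMap K (AlgebraicClosure K)) (hes f₁) (hes f₂)
    rw [h0, Polynomial.map_zero] at h3
    obtain ⟨x, hx, hAx, hBx⟩ := Pool.Agent.H32.N6W.sing_of_det
      (symm_map (algebraMap K (AlgebraicClosure K)) hA.1) h3
    have h2E : (2 : AlgebraicClosure K) ≠ 0 := two_ne_zero
    have ha' : MvPolynomial.eval₂ (algebraMap K (AlgebraicClosure K)) x f₁ = 0 := by
      have h4 := (hA.2 _ (algebraMap K (AlgebraicClosure K)) x).1
      rw [hAx, dotProduct_zero] at h4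
      exact (mul_eq_zero.1 h4.symm).resolve_left h2E
    have hb' : MvPolynomial.eval₂ (algebraMap K (AlgebraicClosure K)) x f₂ = 0 := by
      have h4 := (hB.2 _ (algebraMap K (AlgebraicClosure K)) x).1
      rw [hBx] at h4
      exact (mul_eq_zero.1 h4.symm).resolve_left h2E
    have h5 := (hsm x hx ha' hb').ne_zero 0
    apply h5
    funext i
    have h6 := (hA.2 _ (algebraMap K (AlgebraicClosure K)) x).2 i
    rw [hAx, Pi.zero_apply] at h6
    exact h6.symm
  obtain ⟨c, hc⟩ : ∃ c : K, eval c ((hes f₁).map (C : K →+* K[X]) -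
      (X : K[X]) • (hes f₂).map (C : K →+* K[X])).det ≠ 0 := by
    by_contra hcon
    push Not at hcon
    apply hdet
    apply Polynomial.funext
    intro r
    rw [hcon r, eval_zero]
  exact ⟨c, by rw [← Pool.Agent.H32.N6W.eval_det]; exact hc⟩

theorem hes_sub {K : Type} [Field K] {m : ℕ} (f₁ f₂ : MvPolynomial (Fin m) K) (c : K) :
    hes (f₁ - MvPolynomial.C c * f₂) = hes f₁ - c • hes f₂ := by
  ext i j
  unfold hes
  rw [Matrix.sub_apply, Matrix.smul_apply, Matrix.of_apply, Matrix.of_apply, Matrix.of_apply,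
    map_sub, map_sub, MvPolynomial.pderiv_C_mul, MvPolynomial.pderiv_C_mul,
    MvPolynomial.coeff_sub, MvPolynomial.coeff_C_mul, smul_eq_mul]

/-- the Hasse principle for all smooth intersections -/
theorem fin_aux (hHES : T_HES) (hHPA : T_HPA) : T_FIN := by
  intro K _ _ n hn f₁ f₂ h1 h2 hsm hR hF
  obtain ⟨c, hc⟩ := exists_nonsing hHES h1 h2 hsm
  set g : MvPolynomial (Fin (n + 1)) K := f₁ - MvPolynomial.C c * f₂ with hg
  have hgh : g.IsHomogeneous 2 := by
    apply h1.sub
    have h3 := (MvPolynomial.isHomogeneous_C (Fin (n + 1)) c).mul h2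
    rw [zero_add] at h3
    exact h3
  have hgdet : (hes g).det ≠ 0 := by
    rw [hg, hes_sub]
    exact hc
  have hdeg : ((hes f₂).map (C : K →+* K[X]) -
      (X : K[X]) • (hes g).map (C : K →+* K[X])).det.natDegree = n + 1 :=
    Pool.Agent.H32.N6W.deg_of_det hgdet
  have hev : ∀ (R : Type) [Field R] (φ : K →+* R) (x : Fin (n + 1) → R),
      MvPolynomial.eval₂ φ x g = MvPolynomial.eval₂ φ x f₁ - φ c * MvPolynomial.eval₂ φ x f₂ := by
    intro R _ φ x
    rw [hg, MvPolynomial.eval₂_sub, MvPolynomial.eval₂_mul, MvPolynomial.eval₂_C]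
  have hsm' : ∀ x : Fin (n + 1) → AlgebraicClosure K, x ≠ 0 →
      MvPolynomial.eval₂ (algebraMap K (AlgebraicClosure K)) x f₂ = 0 →
      MvPolynomial.eval₂ (algebraMap K (AlgebraicClosure K)) x g = 0 →
      LinearIndependent (AlgebraicClosure K)
        ![fun i => MvPolynomial.eval₂ (algebraMap K (AlgebraicClosure K)) x
            (MvPolynomial.pderiv i f₂),
          fun i => MvPolynomial.eval₂ (algebraMap K (AlgebraicClosure K)) x
            (MvPolynomial.pderiv i g)] := by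
    intro x hx hx2 hxg
    rw [hev, hx2, mul_zero, sub_zero] at hxg
    have h3 := hsm x hx hxg hx2
    rw [LinearIndependent.pair_iff] at h3 ⊢
    intro s t hst
    have h4 := h3 t (s - t * algebraMap K (AlgebraicClosure K) c) (by
      rw [← hst]
      funext i
      rw [Pi.add_apply, Pi.add_apply, Pi.smul_apply, Pi.smul_apply, Pi.smul_apply,
        Pi.smul_apply, smul_eq_mul, smul_eq_mul, smul_eq_mul, smul_eq_mul, hg, map_sub,
        MvPolynomial.pderiv_C_mul, MvPolynomial.eval₂_sub,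
        MvPolynomial.eval₂_mul, MvPolynomial.eval₂_C]
      ring)
    refine ⟨?_, h4.1⟩
    have h5 := h4.2
    rw [h4.1, zero_mul, sub_zero] at h5
    exact h5
  have hloc : LocCZ (hes f₂) (hes g) := by
    intro w
    cases w with
    | inl v =>
      apply cz_of_poly hHES h2 hgh (ic v)
      obtain ⟨x, hx, ha, hb⟩ := hF v
      refine ⟨x, hx, hb, ?_⟩
      rw [hev, ha, hb, mul_zero, sub_zero]
    | inr φ =>
      apply cz_of_poly hHES h2 hgh φ
      obtain ⟨x, hx, ha, hb⟩ := hR φ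
      refine ⟨x, hx, hb, ?_⟩
      rw [hev, ha, hb, mul_zero, sub_zero]
  have h2K : (2 : K) ≠ 0 := two_ne_zero
  have hsd : SD (hes f₂) (hes g) :=
    ⟨(hHES K (n + 1) f₂ h2).1, (hHES K (n + 1) g hgh).1,
      sep_poly hHES K (Nat.succ_ne_zero n) f₂ g h2 hgh hdeg hsm', hdeg⟩
  obtain ⟨x, hx, ha, hb⟩ := poly_of_cz hHES h2K h2 hgh
    (hHPA (n + 1) (by omega) K (hes f₂) (hes g) hsd hloc)
  refine ⟨x, hx, ?_, ha⟩
  rw [hg, map_sub, map_mul, ha, mul_zero, sub_zero] at hb
  exact hb

/-- HD4: the theorem for polynomials -/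
theorem pf_FIN (hHPA : T_HPA) : T_FIN := fin_aux Pool.Agent.H16.SAB.pf_HES hHPA

end Pool.Agent.H17.N6H
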