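import Pool.Agent.H32.N6H.Targets
import Pool.Agent.H17.N6H.FIN

/-!
# Intersections of two quadrics: reduction modulo almost all places
-/

set_option autoImplicit false

open Polynomial NumberField IsDedekindDomain Matrix Pool.Agent.H32.QC Pool.Agent.H34.N6
  Pool.Agent.H32.N6

namespace Pool.Agent.H17.N6H

open Pool.Agent.H32.N6H

/-- the pencil over a ring -/
noncomputable def pR {R : Type} [CommRing R] {n : ℕ} (A B : Matrix (Fin n) (Fin n) R) :
    Matrix (Fin n) (Fin n) R[X] :=
  A.map (C : R →+* R[X]) - (X : R[X]) • B.map (C : R →+* R[X])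

theorem pen_map {R F : Type} [CommRing R] [Field F] (φ : R →+* F) {n : ℕ}
    (A B : Matrix (Fin n) (Fin n) R) :
    (pen (A.map φ) (B.map φ)).det = (pR A B).det.map φ := by
  have h1 : pen (A.map φ) (B.map φ) = (Polynomial.mapRingHom φ).mapMatrix (pR A B) := by
    ext1 i j
    unfold pen pR
    rw [RingHom.mapMatrix_apply, Matrix.map_apply, Matrix.sub_apply, Matrix.sub_apply,
      Matrix.smul_apply, Matrix.smul_apply, Matrix.map_apply, Matrix.map_apply,
      Matrix.map_apply, Matrix.map_apply, Matrix.map_apply, Matrix.map_apply, map_sub,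
      smul_eq_mul, smul_eq_mul, map_mul, Polynomial.coe_mapRingHom, Polynomial.map_C,
      Polynomial.map_C, Polynomial.map_X]
  rw [h1, ← RingHom.map_det]
  rfl

theorem pen_smul {F : Type} [Field F] {n : ℕ} (A B : Matrix (Fin n) (Fin n) F) (d : F) :
    pen (d • A) (d • B) = (C d : F[X]) • pen A B := by
  ext1 i j
  unfold pen
  rw [Matrix.sub_apply, Matrix.smul_apply, Matrix.map_apply, Matrix.map_apply,
    Matrix.smul_apply, Matrix.smul_apply, Matrix.smul_apply, Matrix.sub_apply,
    Matrix.smul_apply, Matrix.map_apply, Matrix.map_apply, smul_eq_mul, smul_eq_mul,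
    smul_eq_mul, smul_eq_mul, smul_eq_mul, C_mul, C_mul]
  ring

theorem det_ne_of_SD {F : Type} [Field F] {n : ℕ} {A B : Matrix (Fin n) (Fin n) F}
    (h : SD A B) : B.det ≠ 0 := by
  rcases Nat.eq_zero_or_pos n with rfl | hn
  · rw [Matrix.det_isEmpty]
    exact one_ne_zero
  · exact det_lead hn.ne' h.deg

/-- common denominators of two matrices -/
theorem exists_den (K : Type) [Field K] [NumberField K] {n : ℕ}
    (A B : Matrix (Fin n) (Fin n) K) :
    ∃ (A' B' : Matrix (Fin n) (Fin n) (𝓞 K)) (d : K), d ≠ 0 ∧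
      A'.map (algebraMap (𝓞 K) K) = d • A ∧ B'.map (algebraMap (𝓞 K) K) = d • B := by
  obtain ⟨b, hb⟩ := IsLocalization.exist_integer_multiples (nonZeroDivisors (𝓞 K))
    (Finset.univ : Finset (Bool × Fin n × Fin n))
    (fun t => cond t.1 (A t.2.1 t.2.2) (B t.2.1 t.2.2))
  have hA : ∀ i j, ∃ a : 𝓞 K, algebraMap (𝓞 K) K a = algebraMap (𝓞 K) K b * A i j := by
    intro i j
    obtain ⟨a, ha⟩ := hb (true, i, j) (Finset.mem_univ _)
    refine ⟨a, ha.trans ?_⟩
    change (b : 𝓞 K) • A i j = _
    rw [Algebra.smul_def]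
  have hB : ∀ i j, ∃ a : 𝓞 K, algebraMap (𝓞 K) K a = algebraMap (𝓞 K) K b * B i j := by
    intro i j
    obtain ⟨a, ha⟩ := hb (false, i, j) (Finset.mem_univ _)
    refine ⟨a, ha.trans ?_⟩
    change (b : 𝓞 K) • B i j = _
    rw [Algebra.smul_def]
  choose A' hA' using hA
  choose B' hB' using hB
  refine ⟨Matrix.of A', Matrix.of B', algebraMap (𝓞 K) K b, ?_, ?_, ?_⟩
  · have h1 : (b : 𝓞 K) ≠ 0 := nonZeroDivisors.coe_ne_zero b
    intro h2
    apply h1
    apply FaithfulSMul.algebraMap_injective (𝓞 K) K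
    rw [h2, map_zero]
  · ext1 i j
    rw [Matrix.map_apply, Matrix.of_apply, hA', Matrix.smul_apply, smul_eq_mul]
  · ext1 i j
    rw [Matrix.map_apply, Matrix.of_apply, hB', Matrix.smul_apply, smul_eq_mul]

/-- a Bezout relation over the integers -/
theorem exists_bez (K : Type) [Field K] [NumberField K] (P : (𝓞 K)[X])
    (h : (P.map (algebraMap (𝓞 K) K)).Separable) :
    ∃ (u w : (𝓞 K)[X]) (r : 𝓞 K), r ≠ 0 ∧ u * P + w * derivative P = C r := by
  obtain ⟨u, w, huw⟩ := h
  obtain ⟨b, hbm, hb⟩ := IsLocalization.integerNormalization_spec (nonZeroDivisors (𝓞 K)) u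
  obtain ⟨c, hcm, hc⟩ := IsLocalization.integerNormalization_spec (nonZeroDivisors (𝓞 K)) w
  set u' := IsLocalization.integerNormalization (nonZeroDivisors (𝓞 K)) u with hu'
  set w' := IsLocalization.integerNormalization (nonZeroDivisors (𝓞 K)) w with hw'
  have hb0 : b ≠ 0 := nonZeroDivisors.ne_zero hbm
  have hc0 : c ≠ 0 := nonZeroDivisors.ne_zero hcm
  refine ⟨C c * u', C b * w', b * c, mul_ne_zero hb0 hc0, ?_⟩
  apply Polynomial.map_injective (algebraMap (𝓞 K) K)
    (FaithfulSMul.algebraMap_injective (𝓞 K) K)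
  have hb' : u'.map (algebraMap (𝓞 K) K) = C (algebraMap (𝓞 K) K b) * u := by
    rw [hb, ← Polynomial.smul_eq_C_mul, algebraMap_smul]
  have hc' : w'.map (algebraMap (𝓞 K) K) = C (algebraMap (𝓞 K) K c) * w := by
    rw [hc, ← Polynomial.smul_eq_C_mul, algebraMap_smul]
  rw [Polynomial.map_add, Polynomial.map_mul, Polynomial.map_mul, Polynomial.map_mul,
    Polynomial.map_mul, Polynomial.map_C, Polynomial.map_C, Polynomial.map_C, hb', hc', map_mul,
    C_mul]
  rw [derivative_map] at huw
  calc C (algebraMap (𝓞 K) K c) * (C (algebraMap (𝓞 K) K b) * u) *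
        P.map (algebraMap (𝓞 K) K) +
        C (algebraMap (𝓞 K) K b) * (C (algebraMap (𝓞 K) K c) * w) *
        (derivative P).map (algebraMap (𝓞 K) K)
      = C (algebraMap (𝓞 K) K b) * C (algebraMap (𝓞 K) K c) *
        (u * P.map (algebraMap (𝓞 K) K) + w * (derivative P).map (algebraMap (𝓞 K) K)) := by
        ring
    _ = C (algebraMap (𝓞 K) K b) * C (algebraMap (𝓞 K) K c) := by
        rw [huw, mul_one]

/-- almost all places avoid a given element and have a large norm -/
theorem exists_set (K : Type) [Field K] [NumberField K] (t : 𝓞 K) (ht : t ≠ 0) (M : ℕ) :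
    ∃ S : Finset (FPl K), ∀ v : FPl K, v ∉ S →
      t ∉ v.asIdeal ∧ M < Ideal.absNorm v.asIdeal := by
  have h1 : {v : FPl K | v.asIdeal ∣ Ideal.span {t}}.Finite := by
    apply Ideal.finite_factors
    intro h0
    apply ht
    rw [Ideal.zero_eq_bot, Ideal.span_singleton_eq_bot] at h0
    exact h0
  have h2 : {v : FPl K | Ideal.absNorm v.asIdeal ≤ M}.Finite := by
    have h3 : {I : Ideal (𝓞 K) | Ideal.absNorm I ≤ M}.Finite := Ideal.finite_setOfPred_absNorm_le M
    refine Set.Finite.preimage (f := fun v : FPl K => v.asIdeal) ?_ h3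
    intro v _ w _ hvw
    exact HeightOneSpectrum.ext hvw
  refine ⟨(h1.union h2).toFinset, fun v hv => ?_⟩
  rw [Set.Finite.mem_toFinset, Set.mem_union, not_or] at hv
  refine ⟨fun hcon => hv.1 ?_, not_le.1 hv.2⟩
  change v.asIdeal ∣ Ideal.span {t}
  rw [Ideal.dvd_span_singleton]
  exact hcon

/-- the order of the residue field -/
theorem card_res {R k : Type} [CommRing R] [IsDedekindDomain R] [Module.Free ℤ R] [Field k]
    (π : R →+* k) (hπ : Function.Surjective π) (I : Ideal R)
    (hI : RingHom.ker π = I) : Nat.card k = Ideal.absNorm I := by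
  subst hI
  rw [Ideal.absNorm_apply, Submodule.cardQuot_apply]
  exact (Nat.card_congr (RingHom.quotientKerEquivOfSurjective hπ).toEquiv).symm

theorem symm_of_map {R F : Type} [CommRing R] [Field F] (φ : R →+* F)
    (hφ : Function.Injective φ) {n : ℕ} {A : Matrix (Fin n) (Fin n) R}
    (h : (A.map φ).IsSymm) : A.IsSymm := by
  ext i j
  apply hφ
  have h1 := congrFun (congrFun h i) j
  exact h1

/-- HC6: reduction modulo almost all places -/
theorem pf_RED : T_RED := by
  intro K _ _ n M A B hSD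
  obtain ⟨A', B', d, hd, hA', hB'⟩ := exists_den K A B
  have hinj := FaithfulSMul.algebraMap_injective (𝓞 K) K
  have hP : (pR A' B').det.map (algebraMap (𝓞 K) K) = C d ^ n * (pen A B).det := by
    rw [← pen_map, hA', hB', pen_smul, Matrix.det_smul, Fintype.card_fin]
  have hsep : ((pR A' B').det.map (algebraMap (𝓞 K) K)).Separable := by
    rw [hP]
    apply Polynomial.Separable.unit_mul _ hSD.sep
    exact (Polynomial.isUnit_C.2 (isUnit_iff_ne_zero.2 hd)).pow n
  obtain ⟨u, w, r, hr, huw⟩ := exists_bez K _ hsep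
  have hdB : B'.det ≠ 0 := by
    intro h0
    have h1 := RingHom.map_det (algebraMap (𝓞 K) K) B'
    rw [h0, map_zero, RingHom.mapMatrix_apply, hB', Matrix.det_smul] at h1
    exact mul_ne_zero (pow_ne_zero _ hd) (det_ne_of_SD hSD) h1.symm
  obtain ⟨S, hS⟩ := exists_set K (2 * B'.det * r)
    (mul_ne_zero (mul_ne_zero two_ne_zero hdB) hr) M
  refine ⟨A', B', d, S, hd, hA', hB', ?_⟩
  intro v hv k _ π hπ hker
  obtain ⟨ht, hM⟩ := hS v hv
  have hπt : π (2 * B'.det * r) ≠ 0 := by
    intro h0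
    apply ht
    rw [← hker]
    exact (RingHom.mem_ker).2 h0
  rw [map_mul, map_mul] at hπt
  have hπr : π r ≠ 0 := right_ne_zero_of_mul hπt
  have hπB : π B'.det ≠ 0 := right_ne_zero_of_mul (left_ne_zero_of_mul hπt)
  have hπ2 : (2 : k) ≠ 0 := by
    have h1 := left_ne_zero_of_mul (left_ne_zero_of_mul hπt)
    rw [map_ofNat] at h1
    exact h1
  have hcard : M < Nat.card k := by
    rw [card_res π hπ v.asIdeal hker]
    exact hM
  refine ⟨Nat.finite_of_card_ne_zero (by omega), hπ2, hcard, ?_, ?_, ?_, ?_⟩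
  · have h1 : A'.IsSymm := symm_of_map (algebraMap (𝓞 K) K) hinj (by
      rw [hA']
      exact hSD.sA.smul d)
    exact h1.map π
  · have h1 : B'.IsSymm := symm_of_map (algebraMap (𝓞 K) K) hinj (by
      rw [hB']
      exact hSD.sB.smul d)
    exact h1.map π
  · rw [pen_map]
    have h1 := congrArg (Polynomial.map π) huw
    rw [Polynomial.map_add, Polynomial.map_mul, Polynomial.map_mul, Polynomial.map_C,
      ← derivative_map] at h1
    refine ⟨C (π r)⁻¹ * u.map π, C (π r)⁻¹ * w.map π, ?_⟩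
    calc C (π r)⁻¹ * u.map π * (pR A' B').det.map π +
          C (π r)⁻¹ * w.map π * derivative ((pR A' B').det.map π)
        = C (π r)⁻¹ * (u.map π * (pR A' B').det.map π +
          w.map π * derivative ((pR A' B').det.map π)) := by ring
      _ = 1 := by
          rw [h1, ← C_mul, inv_mul_cancel₀ hπr, C_1]
  · apply Pool.Agent.H32.N6W.deg_of_det
    have h1 := RingHom.map_det π B'
    rw [RingHom.mapMatrix_apply] at h1
    rw [← h1]
    exact hπB

end Pool.Agent.H17.N6H
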